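import Mathlib

/-!
Definitions for the statement of MP_3f1d68_pr: canopy tree, Bernoulli bond percolation,
critical parameter.
-/

namespace Pool.Agent.Helper37.Canopy

open MeasureTheory ProbabilityTheory unitInterval

/-- `G` is the canopy tree `CT_d`, with `lev v` the index of the level of the vertex `v`:
an (infinite) tree whose levels `L_k = {v | lev v = k}` are all infinite, such that every vertex
of `L_k` has exactly one neighbour in `L_{k+1}`, every vertex of `L_k` with `k ≥ 1` has exactly
`d - 1` neighbours in `L_{k-1}`, and there are no other edges. -/
structure IsCanopyTree (d : ℕ) {V : Type*} (G : SimpleGraph V) (lev : V → ℕ) : Prop where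
  isTree : G.IsTree
  infinite_level : ∀ k, {v | lev v = k}.Infinite
  up : ∀ v, ∃! w, G.Adj v w ∧ lev w = lev v + 1
  down : ∀ v, 1 ≤ lev v → {w | G.Adj v w ∧ lev w + 1 = lev v}.ncard = d - 1
  no_other : ∀ v w, G.Adj v w → lev w = lev v + 1 ∨ lev v = lev w + 1

/-- The set `s` of (open) edges has an infinite cluster: the graph with edge set `s` has an
infinite connected component. -/
def HasInfiniteCluster {V : Type*} (s : Set (Sym2 V)) : Prop :=
  ∃ C : (SimpleGraph.fromEdgeSet s).ConnectedComponent, C.supp.Infinite

/-- The critical parameter of Bernoulli bond percolation on `G`: the infimum of the `p ∈ [0,1]`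
such that the random subset of the edge set of `G`, to which each edge belongs independently
with probability `p` (Mathlib's `setBernoulli`), has an infinite cluster with positive
probability. -/
noncomputable def pc {V : Type*} (G : SimpleGraph V) : ℝ :=
  sInf {x : ℝ | ∃ h : x ∈ I, 0 < setBernoulli G.edgeSet ⟨x, h⟩ {s | HasInfiniteCluster s}}

end Pool.Agent.Helper37.Canopy
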