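import Mathlib

/-!
Internal definitions: configurations, product measure, open subgraphs, words, boxes, ladders.
-/

namespace Pool.Agent.Helper37.Canopy

open MeasureTheory ProbabilityTheory unitInterval SimpleGraph

/-! ### Configurations -/

/-- Configurations indexed by `E`. -/
abbrev Cfg (E : Type*) := E → Bool

/-- Product Bernoulli measure. -/
noncomputable def mu (E : Type*) (p : I) : Measure (Cfg E) :=
  Measure.infinitePi (fun _ : E => bernoulliMeasure true false p)

instance (E : Type*) (p : I) : IsProbabilityMeasure (mu E p) := by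
  unfold mu; infer_instance

/-- Probability of an event, as a real number. -/
noncomputable def Pr {E : Type*} (p : I) (A : Set (Cfg E)) : ℝ := (mu E p).real A

/-- The event `A` only depends on the coordinates in `S`. -/
def Dep {E : Type*} (S : Set E) (A : Set (Cfg E)) : Prop :=
  ∀ ω ω' : Cfg E, (∀ e ∈ S, ω e = ω' e) → ω ∈ A → ω' ∈ A

open Classical in
/-- `ω` on `S` and `ω'` off `S`. -/
noncomputable def splice {E : Type*} (S : Set E) (ω ω' : Cfg E) : Cfg E :=
  fun e => if e ∈ S then ω e else ω' e

/-! ### Graphs -/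

section Graph

variable {W : Type*}

/-- The open subgraph of `G`. -/
def opn (G : SimpleGraph W) (ω : Cfg (Sym2 W)) : SimpleGraph W where
  Adj x y := G.Adj x y ∧ ω s(x, y) = true
  symm := ⟨fun x y h => ⟨h.1.symm, by rw [Sym2.eq_swap]; exact h.2⟩⟩
  loopless := ⟨fun x h => G.loopless.irrefl x h.1⟩

/-- Restriction of a graph to a set of vertices (on the same vertex type). -/
def res (G : SimpleGraph W) (R : Set W) : SimpleGraph W where
  Adj x y := G.Adj x y ∧ x ∈ R ∧ y ∈ R
  symm := ⟨fun x y h => ⟨h.1.symm, h.2.2, h.2.1⟩⟩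
  loopless := ⟨fun x h => G.loopless.irrefl x h.1⟩

/-- The event that `x` and `y` are connected by an open path of `G`. -/
def conn (G : SimpleGraph W) (x y : W) : Set (Cfg (Sym2 W)) :=
  {ω | (opn G ω).Reachable x y}

/-- The event that some open cluster of `G` is infinite. -/
def infEv (G : SimpleGraph W) : Set (Cfg (Sym2 W)) :=
  {ω | ∃ x, {y | (opn G ω).Reachable x y}.Infinite}

end Graph

/-! ### Words -/

section Words

variable {D : Type}

/-- The tree of words; the parent of `z ++ [a]` is `z`. -/
def WT (D : Type) : SimpleGraph (List D) where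
  Adj z z' := (∃ a, z' = z ++ [a]) ∨ (∃ a, z = z' ++ [a])
  symm := ⟨fun x y h => h.symm⟩
  loopless := ⟨fun x h => by
    rcases h with ⟨a, h⟩ | ⟨a, h⟩ <;> simpa using congrArg List.length h⟩

/-- Words times `ℤ`. -/
noncomputable def WZ (D : Type) : SimpleGraph (List D × ℤ) := WT D □ hasse ℤ

/-- Words of length at most `K` and heights in `[a, b]`. -/
def box (D : Type) (K : ℕ) (a b : ℤ) : Set (List D × ℤ) :=
  {q | q.1.length ≤ K ∧ a ≤ q.2 ∧ q.2 ≤ b}

/-- The box graph. -/
noncomputable def BG (D : Type) (K : ℕ) (a b : ℤ) : SimpleGraph (List D × ℤ) := res (WZ D) (box D K a b)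

/-- One-arm hypothesis: for every depth `k` the leaf `0^k` at height `0` is connected to the root
column in some box `B_k × [-H, H]` with probability at least `θ`. -/
def ArmHyp (D : Type) [Zero D] (p : I) (θ : ℝ) : Prop :=
  ∀ k : ℕ, ∃ H : ℕ, θ ≤ Pr p {ω : Cfg (Sym2 (List D × ℤ)) |
    ∃ h : ℤ, (opn (BG D k (-H) H) ω).Reachable (List.replicate k 0, 0) ([], h)}

/-- Connection bound on a leaf column. -/
def LeafConn (D : Type) [Zero D] (p : I) (c : ℝ) : Prop :=
  ∀ m : ℕ, ∃ k M : ℕ,
    c ≤ Pr p (conn (BG D k (-M) M) (List.replicate k 0, 0) (List.replicate k 0, (m : ℤ)))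

/-- Connection bound on the root column, for distances up to `L`, with margin `M`. -/
def RootConn (D : Type) (p : I) (K M L : ℕ) (c : ℝ) : Prop :=
  ∀ m : ℕ, m ≤ L → c ≤ Pr p (conn (BG D K (-M) (m + M)) ([], 0) ([], (m : ℤ)))

/-- Words of length at most `N` with no prefix of the form `y ++ 0^s`, `|y| = s`. -/
def Out (D : Type) [Zero D] (s N : ℕ) : Set (List D) :=
  {z | z.length ≤ N ∧ ∀ y : List D, y.length = s → ¬ (y ++ List.replicate s 0) <+: z}

end Words

/-! ### The ladder graph -/

/-- `(κ, none, x)` is the point of height `x` above the ray vertex `v_κ`; `(κ, some z, x)` is the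
point of height `x` above the vertex `z` of the tree below the sibling `c_κ` of `v_κ`. -/
abbrev LV (D : Type) := ℕ × Option (List D) × ℤ

/-- Oriented adjacency of the ladder graph. -/
inductive LAdj (D : Type) : LV D → LV D → Prop
  | vert (κ : ℕ) (x : ℤ) : 0 ≤ x → LAdj D (κ, none, x) (κ, none, x + 1)
  | up (κ : ℕ) (x : ℤ) : 0 ≤ x → LAdj D (κ, none, x) (κ + 1, none, x)
  | sib (κ : ℕ) (x : ℤ) : 0 ≤ x → LAdj D (κ, some [], x) (κ + 1, none, x)
  | inn (κ : ℕ) (q q' : List D × ℤ) : 0 ≤ q.2 → 0 ≤ q'.2 → q.1.length ≤ κ → q'.1.length ≤ κ →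
      (WZ D).Adj q q' → LAdj D (κ, some q.1, q.2) (κ, some q'.1, q'.2)

/-- The ladder graph: ray columns and sibling strips, heights `≥ 0`. -/
noncomputable def LG (D : Type) : SimpleGraph (LV D) := SimpleGraph.fromRel (LAdj D)

/-! ### Canopy trees with coordinates -/

/-- A canopy tree with a parent map, labelled children and a distinguished ray. -/
structure CData (D : Type) [Zero D] {V : Type*} (G : SimpleGraph V) where
  lev : V → ℕ
  par : V → V
  child : V → D → V
  ray : ℕ → V
  lev_par : ∀ v, lev (par v) = lev v + 1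
  adj_iff : ∀ v w, G.Adj v w ↔ (par v = w ∨ par w = v)
  par_child : ∀ v a, 1 ≤ lev v → par (child v a) = v
  child_inj : ∀ v, 1 ≤ lev v → Function.Injective (child v)
  child_surj : ∀ w, ∃ a, child (par w) a = w
  lev_ray : ∀ k, lev (ray k) = k
  par_ray : ∀ k, par (ray k) = ray (k + 1)
  child_ray : ∀ k, child (ray (k + 1)) 0 = ray k

end Pool.Agent.Helper37.Canopy
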