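import Pool.Agent.Helper37.Canopy.Meas

/-! Module G: graphs. -/

namespace Pool.Agent.Helper37.Canopy

open MeasureTheory ProbabilityTheory unitInterval SimpleGraph

section G

variable {W W' : Type*} {p : I}

theorem opn_res (G : SimpleGraph W) (R : Set W) (ω : Cfg (Sym2 W)) :
    opn (res G R) ω = res (opn G ω) R := by
  ext x y
  simp only [opn, res]
  tauto

theorem opn_mono {G G' : SimpleGraph W} (h : G ≤ G') {ω ω' : Cfg (Sym2 W)} (hω : ω ≤ ω') :
    opn G ω ≤ opn G' ω' := by
  intro x y hxy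
  refine ⟨h hxy.1, ?_⟩
  have := hω s(x, y)
  rw [hxy.2] at this
  exact Bool.eq_true_of_true_le this

theorem res_le (G : SimpleGraph W) (R : Set W) : res G R ≤ G := fun _ _ h => h.1

theorem res_mono {G G' : SimpleGraph W} (h : G ≤ G') {R R' : Set W} (hR : R ⊆ R') :
    res G R ≤ res G' R' := fun _ _ hxy => ⟨h hxy.1, hR hxy.2.1, hR hxy.2.2⟩

theorem opn_congr (G : SimpleGraph W) {ω ω' : Cfg (Sym2 W)} (h : ∀ e ∈ G.edgeSet, ω e = ω' e) :
    opn G ω = opn G ω' := by
  ext x y
  simp only [opn]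
  constructor
  · rintro ⟨h1, h2⟩; exact ⟨h1, by rw [← h _ (by simpa using h1)]; exact h2⟩
  · rintro ⟨h1, h2⟩; exact ⟨h1, by rw [h _ (by simpa using h1)]; exact h2⟩

theorem conn_dep (G : SimpleGraph W) (x y : W) : Dep G.edgeSet (conn G x y) := by
  intro ω ω' h hω
  simp only [conn, Set.mem_ofPred_eq] at hω ⊢
  rw [← opn_congr G h]; exact hω

theorem isUpperSet_conn (G : SimpleGraph W) (x y : W) : IsUpperSet (conn G x y) := by
  intro ω ω' h hω
  exact SimpleGraph.Reachable.mono (opn_mono le_rfl h) hω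

theorem conn_mono {G G' : SimpleGraph W} (h : G ≤ G') (x y : W) : conn G x y ⊆ conn G' x y :=
  fun _ hω => SimpleGraph.Reachable.mono (opn_mono h le_rfl) hω

theorem conn_self (G : SimpleGraph W) (x : W) : conn G x x = Set.univ :=
  Set.eq_univ_of_forall fun _ => SimpleGraph.Reachable.refl x

theorem conn_comm (G : SimpleGraph W) (x y : W) : conn G x y = conn G y x :=
  Set.ext fun _ => ⟨fun h => SimpleGraph.Reachable.symm h, fun h => SimpleGraph.Reachable.symm h⟩

theorem conn_trans (G : SimpleGraph W) (x y z : W) : conn G x y ∩ conn G y z ⊆ conn G x z :=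
  fun _ h => SimpleGraph.Reachable.trans h.1 h.2

theorem reachable_iff_rtg (G : SimpleGraph W) (x y : W) :
    G.Reachable x y ↔ Relation.ReflTransGen G.Adj x y := by
  exact SimpleGraph.reachable_iff_reflTransGen x y

/-- n-step reachability -/
def stepR (G : SimpleGraph W) : ℕ → W → W → Prop
  | 0, x, y => x = y
  | n + 1, x, y => ∃ z, stepR G n x z ∧ G.Adj z y

theorem reachable_iff_stepR (G : SimpleGraph W) (x y : W) :
    G.Reachable x y ↔ ∃ n, stepR G n x y := by
  rw [reachable_iff_rtg]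
  constructor
  · intro h
    induction h with
    | refl => exact ⟨0, rfl⟩
    | tail _ h ih =>
      obtain ⟨n, hn⟩ := ih
      exact ⟨n + 1, _, hn, h⟩
  · rintro ⟨n, hn⟩
    induction n generalizing y with
    | zero => rw [show x = y from hn]
    | succ n ih =>
      obtain ⟨z, hz, hzy⟩ := hn
      exact (ih z hz).tail hzy

theorem measurableSet_adj (G : SimpleGraph W) (x y : W) :
    MeasurableSet {ω : Cfg (Sym2 W) | (opn G ω).Adj x y} := by
  by_cases h : G.Adj x y
  · have : {ω : Cfg (Sym2 W) | (opn G ω).Adj x y} = {ω | ω s(x, y) = true} := by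
      ext ω; simp [opn, h]
    rw [this]; exact measurableSet_coord _ _
  · have : {ω : Cfg (Sym2 W) | (opn G ω).Adj x y} = ∅ := by
      ext ω; simp [opn, h]
    rw [this]; exact MeasurableSet.empty

theorem measurableSet_stepR [Countable W] (G : SimpleGraph W) (n : ℕ) (x y : W) :
    MeasurableSet {ω : Cfg (Sym2 W) | stepR (opn G ω) n x y} := by
  induction n generalizing y with
  | zero => exact MeasurableSet.const _
  | succ n ih =>
    have : {ω : Cfg (Sym2 W) | stepR (opn G ω) (n + 1) x y}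
        = ⋃ z, ({ω | stepR (opn G ω) n x z} ∩ {ω | (opn G ω).Adj z y}) := by
      ext ω; simp [stepR]
    rw [this]
    exact MeasurableSet.iUnion fun z => (ih z).inter (measurableSet_adj G z y)

theorem measurableSet_conn [Countable W] (G : SimpleGraph W) (x y : W) :
    MeasurableSet (conn G x y) := by
  have : conn G x y = ⋃ n, {ω | stepR (opn G ω) n x y} := by
    ext ω
    simp only [conn, Set.mem_ofPred_eq, Set.mem_iUnion]
    exact reachable_iff_stepR _ _ _
  rw [this]
  exact MeasurableSet.iUnion fun n => measurableSet_stepR G n x y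

theorem measurableSet_infAt [Countable W] (G : SimpleGraph W) (x : W) :
    MeasurableSet {ω : Cfg (Sym2 W) | {y | (opn G ω).Reachable x y}.Infinite} := by
  classical
  have : {ω : Cfg (Sym2 W) | {y | (opn G ω).Reachable x y}.Infinite}
      = ⋂ F : Finset W, ⋃ y : {y : W // y ∉ F}, conn G x y := by
    ext ω
    simp only [Set.mem_ofPred_eq, Set.mem_iInter, Set.mem_iUnion, conn]
    constructor
    · intro h F
      obtain ⟨y, hy, hF⟩ := h.exists_notMem_finset F
      exact ⟨⟨y, hF⟩, hy⟩
    · intro h hfin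
      obtain ⟨⟨y, hy⟩, hr⟩ := h hfin.toFinset
      exact hy (by simpa using hr)
  rw [this]
  exact MeasurableSet.iInter fun F => MeasurableSet.iUnion fun y => measurableSet_conn G x y

theorem measurableSet_infEv [Countable W] (G : SimpleGraph W) : MeasurableSet (infEv G) := by
  have : infEv G = ⋃ x, {ω : Cfg (Sym2 W) | {y | (opn G ω).Reachable x y}.Infinite} := by
    ext ω; simp [infEv]
  rw [this]
  exact MeasurableSet.iUnion fun x => measurableSet_infAt G x

theorem infAt_dep (G : SimpleGraph W) (x : W) :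
    Dep G.edgeSet {ω : Cfg (Sym2 W) | {y | (opn G ω).Reachable x y}.Infinite} := by
  intro ω ω' h hω
  simp only [Set.mem_ofPred_eq] at hω ⊢
  rw [← opn_congr G h]; exact hω

theorem infEv_dep (G : SimpleGraph W) : Dep G.edgeSet (infEv G) := by
  intro ω ω' h hω
  simp only [infEv, Set.mem_ofPred_eq] at hω ⊢
  rw [← opn_congr G h]; exact hω

theorem reach_map {G' : SimpleGraph W'} {G : SimpleGraph W} (f : W' → W)
    (hf : ∀ x y, G'.Adj x y → G.Adj (f x) (f y)) {ω : Cfg (Sym2 W)} {x y : W'}
    (h : (opn G' (fun e => ω (Sym2.map f e))).Reachable x y) :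
    (opn G ω).Reachable (f x) (f y) := by
  rw [reachable_iff_rtg] at h ⊢
  induction h with
  | refl => exact Relation.ReflTransGen.refl
  | tail _ h ih =>
    refine ih.tail ?_
    exact ⟨hf _ _ h.1, by simpa using h.2⟩

theorem injOn_sym2 {G' : SimpleGraph W'} (f : W' → W) {R' : Set W'} (hf : Set.InjOn f R')
    (hR : ∀ x y, G'.Adj x y → x ∈ R') : Set.InjOn (Sym2.map f) G'.edgeSet := by
  intro e he e' he' h
  induction e using Sym2.ind with
  | _ x y =>
  induction e' using Sym2.ind with
  | _ x' y' =>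
  rw [SimpleGraph.mem_edgeSet] at he he'
  have hx := hR _ _ he
  have hy := hR _ _ he.symm
  have hx' := hR _ _ he'
  have hy' := hR _ _ he'.symm
  simp only [Sym2.map_mk, Sym2.eq_iff] at h ⊢
  rcases h with ⟨h1, h2⟩ | ⟨h1, h2⟩
  · exact Or.inl ⟨hf hx hx' h1, hf hy hy' h2⟩
  · exact Or.inr ⟨hf hx hy' h1, hf hy hx' h2⟩

/-- Transfer of an event of a graph `G'` along a vertex map which is injective on the support. -/
theorem Pr_pull_graph {G' : SimpleGraph W'} (f : W' → W) {R' : Set W'} (hf : Set.InjOn f R')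
    (hR : ∀ x y, G'.Adj x y → x ∈ R') {A' : Set (Cfg (Sym2 W'))} (hA' : MeasurableSet A')
    (dA' : Dep G'.edgeSet A') :
    Pr p {ω : Cfg (Sym2 W) | (fun e => ω (Sym2.map f e)) ∈ A'} = Pr p A' :=
  Pr_pull (Sym2.map f) (injOn_sym2 f hf hR) hA' dA'

theorem Pr_conn_le [Countable W'] {G' : SimpleGraph W'} {G : SimpleGraph W} (f : W' → W)
    {R' : Set W'} (hf : Set.InjOn f R') (hR : ∀ x y, G'.Adj x y → x ∈ R')
    (hfG : ∀ x y, G'.Adj x y → G.Adj (f x) (f y)) (x y : W') :
    Pr p (conn G' x y) ≤ Pr p (conn G (f x) (f y)) := by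
  rw [← Pr_pull_graph (p := p) f hf hR (measurableSet_conn G' x y) (conn_dep G' x y)]
  exact Pr_mono fun ω hω => reach_map f hfG hω

theorem reach_or_exit {G : SimpleGraph W} {Q : Set W} {a b : W} (h : G.Reachable a b)
    (ha : a ∈ Q) : (res G Q).Reachable a b ∨
      ∃ x ∈ Q, ∃ y, y ∉ Q ∧ (res G Q).Reachable a x ∧ G.Adj x y := by
  rw [reachable_iff_rtg] at h
  have key : ((res G Q).Reachable a b ∧ b ∈ Q) ∨
      ∃ x ∈ Q, ∃ y, y ∉ Q ∧ (res G Q).Reachable a x ∧ G.Adj x y := by
    induction h with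
    | refl => exact Or.inl ⟨SimpleGraph.Reachable.refl a, ha⟩
    | @tail b c _ hbc ih =>
      rcases ih with ⟨h1, h2⟩ | h1
      · by_cases hc : c ∈ Q
        · refine Or.inl ⟨h1.trans (SimpleGraph.Adj.reachable ?_), hc⟩
          exact ⟨hbc, h2, hc⟩
        · exact Or.inr ⟨b, h2, c, hc, h1, hbc⟩
      · exact Or.inr h1
  exact key.imp (fun h => h.1) id

/-- Reachable vertices of a restricted graph stay in the region. -/
theorem mem_of_reachable_res {G : SimpleGraph W} {Q : Set W} {a b : W} (ha : a ∈ Q)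
    (h : (res G Q).Reachable a b) : b ∈ Q := by
  rw [reachable_iff_rtg] at h
  induction h with
  | refl => exact ha
  | tail _ h _ => exact h.2.2

theorem zadj (a b : ℤ) : (hasse ℤ).Adj a b ↔ (b = a + 1 ∨ a = b + 1) := by
  rw [hasse_adj, Order.covBy_iff_add_one_eq, Order.covBy_iff_add_one_eq]
  constructor <;> rintro (h | h) <;> omega

theorem nadj (a b : ℕ) : (hasse ℕ).Adj a b ↔ (b = a + 1 ∨ a = b + 1) := by
  rw [hasse_adj, Order.covBy_iff_add_one_eq, Order.covBy_iff_add_one_eq]
  constructor <;> rintro (h | h) <;> omega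

end G

end Pool.Agent.Helper37.Canopy
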