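import Pool.Agent.Helper37.Canopy.CDefs
import Pool.Agent.Helper37.Canopy.Graph

/-! Module F: the percolation measure of the statement in terms of `mu`. -/

namespace Pool.Agent.Helper37.Canopy

open MeasureTheory ProbabilityTheory unitInterval SimpleGraph

section F

theorem measurableSet_inf_of_adj {Ω W : Type*} [MeasurableSpace Ω] [Countable W]
    (g : Ω → SimpleGraph W) (h : ∀ x y, MeasurableSet {ω | (g ω).Adj x y}) :
    MeasurableSet {ω | ∃ x, {y | (g ω).Reachable x y}.Infinite} := by
  classical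
  have hstep : ∀ n x y, MeasurableSet {ω | stepR (g ω) n x y} := by
    intro n x
    induction n with
    | zero => intro y; exact MeasurableSet.const _
    | succ n ih =>
      intro y
      have : {ω | stepR (g ω) (n + 1) x y}
          = ⋃ z, ({ω | stepR (g ω) n x z} ∩ {ω | (g ω).Adj z y}) := by
        ext ω; simp [stepR]
      rw [this]
      exact MeasurableSet.iUnion fun z => (ih z).inter (h z y)
  have hreach : ∀ x y, MeasurableSet {ω | (g ω).Reachable x y} := by
    intro x y
    have : {ω | (g ω).Reachable x y} = ⋃ n, {ω | stepR (g ω) n x y} := by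
      ext ω
      simp only [Set.mem_ofPred_eq, Set.mem_iUnion]
      exact reachable_iff_stepR _ _ _
    rw [this]
    exact MeasurableSet.iUnion fun n => hstep n x y
  have : {ω | ∃ x, {y | (g ω).Reachable x y}.Infinite}
      = ⋃ x, ⋂ F : Finset W, ⋃ y : {y : W // y ∉ F}, {ω | (g ω).Reachable x y} := by
    ext ω
    simp only [Set.mem_ofPred_eq, Set.mem_iInter, Set.mem_iUnion]
    constructor
    · rintro ⟨x, h⟩
      refine ⟨x, fun F => ?_⟩
      obtain ⟨y, hy, hF⟩ := h.exists_notMem_finset F
      exact ⟨⟨y, hF⟩, hy⟩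
    · rintro ⟨x, h⟩
      refine ⟨x, fun hfin => ?_⟩
      obtain ⟨⟨y, hy⟩, hr⟩ := h hfin.toFinset
      exact hy (by simpa using hr)
  rw [this]
  exact MeasurableSet.iUnion fun x => MeasurableSet.iInter fun F =>
    MeasurableSet.iUnion fun y => hreach x y

theorem hasInfiniteCluster_iff {V : Type*} (s : Set (Sym2 V)) :
    HasInfiniteCluster s ↔ ∃ x, {y | (fromEdgeSet s).Reachable x y}.Infinite := by
  constructor
  · rintro ⟨C, hC⟩
    induction C using ConnectedComponent.ind with
    | _ x =>
      refine ⟨x, ?_⟩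
      convert hC using 1
      ext y
      simp only [Set.mem_ofPred_eq, ConnectedComponent.mem_supp_iff, ConnectedComponent.eq]
      exact ⟨fun h => h.symm, fun h => h.symm⟩
  · rintro ⟨x, hx⟩
    refine ⟨(fromEdgeSet s).connectedComponentMk x, ?_⟩
    convert hx using 1
    ext y
    simp only [Set.mem_ofPred_eq, ConnectedComponent.mem_supp_iff, ConnectedComponent.eq]
    exact ⟨fun h => h.symm, fun h => h.symm⟩

theorem setBernoulli_eq_map_mu {E : Type*} (u : Set E) (p : I) :
    setBernoulli u p = Measure.map (fun ω : Cfg E => {e | e ∈ u ∧ ω e = true}) (mu E p) := by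
  have hf : ∀ e : E, Measurable (fun b : Bool => (e ∈ u ∧ b = true)) :=
    fun e => measurable_of_finite _
  have h1 : (fun e : E => toNNReal p • Measure.dirac (e ∈ u) + toNNReal (σ p) • Measure.dirac False)
      = fun e : E => (bernoulliMeasure true false p).map (fun b : Bool => (e ∈ u ∧ b = true)) := by
    funext e
    rw [bernoulliMeasure_def, Measure.map_add _ _ (hf e), Measure.map_smul, Measure.map_smul,
      Measure.map_dirac' (hf e), Measure.map_dirac' (hf e)]
    simp
  rw [setBernoulli_eq_map]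
  have h2 := Measure.infinitePi_map_pi (fun _ : E => bernoulliMeasure true false p) hf
  have h3 : Measure.infinitePi (fun e : E => toNNReal p • Measure.dirac (e ∈ u)
        + toNNReal (σ p) • Measure.dirac False)
      = Measure.map (fun (ω : Cfg E) (e : E) => (e ∈ u ∧ ω e = true)) (mu E p) := by
    rw [mu, h2]
    congr 1
  rw [h3, Measure.map_map]
  · rfl
  · exact measurable_set_iff.2 fun a => measurable_pi_apply a
  · exact measurable_pi_lambda _ fun e => (hf e).comp (measurable_pi_apply e)

theorem setBernoulli_inf {V : Type*} [Countable V] (G : SimpleGraph V) (p : I) :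
    setBernoulli G.edgeSet p {s | HasInfiniteCluster s} = ENNReal.ofReal (Pr p (infEv G)) := by
  have hm : Measurable (fun ω : Cfg (Sym2 V) => {e | e ∈ G.edgeSet ∧ ω e = true}) := by
    refine measurable_set_iff.2 fun e => ?_
    exact (measurable_of_finite (fun b : Bool => (e ∈ G.edgeSet ∧ b = true))).comp
      (measurable_pi_apply e)
  have hS : MeasurableSet {s : Set (Sym2 V) | HasInfiniteCluster s} := by
    have h1 : {s : Set (Sym2 V) | HasInfiniteCluster s}
        = {s | ∃ x, {y | (fromEdgeSet s).Reachable x y}.Infinite} := by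
      ext s; exact hasInfiniteCluster_iff s
    rw [h1]
    refine measurableSet_inf_of_adj (fun s : Set (Sym2 V) => fromEdgeSet s) fun x y => ?_
    have h2 : {s : Set (Sym2 V) | (fromEdgeSet s).Adj x y}
        = {s | s(x, y) ∈ s} ∩ {_s | x ≠ y} := by
      ext s; simp [fromEdgeSet_adj]
    rw [h2]
    exact (measurableSet_setOfPred.2 (measurable_set_mem _)).inter (MeasurableSet.const _)
  rw [setBernoulli_eq_map_mu, Measure.map_apply hm hS, ofReal_Pr]
  congr 1
  ext ω
  simp only [Set.mem_preimage, Set.mem_ofPred_eq, hasInfiniteCluster_iff, infEv]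
  have : fromEdgeSet {e | e ∈ G.edgeSet ∧ ω e = true} = opn G ω := by
    ext x y
    simp only [fromEdgeSet_adj, Set.mem_ofPred_eq, mem_edgeSet, opn]
    constructor
    · rintro ⟨h, _⟩; exact h
    · intro h; exact ⟨h, h.1.ne⟩
  rw [this]

theorem exists_infAt {W : Type*} [Countable W] {G : SimpleGraph W} {p : I}
    (h : 0 < Pr p (infEv G)) :
    ∃ x, 0 < Pr p {ω | {y | (opn G ω).Reachable x y}.Infinite} := by
  by_contra hc
  push Not at hc
  have h1 : ∀ x, mu (Sym2 W) p {ω | {y | (opn G ω).Reachable x y}.Infinite} = 0 := by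
    intro x
    have := hc x
    rw [← ofReal_Pr]
    exact ENNReal.ofReal_eq_zero.2 this
  have h2 : mu (Sym2 W) p (infEv G) = 0 := by
    have : infEv G = ⋃ x, {ω : Cfg (Sym2 W) | {y | (opn G ω).Reachable x y}.Infinite} := by
      ext ω; simp [infEv]
    rw [this]
    exact measure_iUnion_null h1
  rw [Pr, Measure.real, h2] at h
  simp at h

theorem Pr_inf_zero {W : Type*} [Countable W] {G : SimpleGraph W} : Pr 0 (infEv G) = 0 := by
  have h1 : ∀ e : Sym2 W, mu (Sym2 W) 0 {ω | ω e = true} = 0 := by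
    intro e
    have := mu_open (p := 0) ({e} : Finset (Sym2 W))
    simpa using this
  have h2 : mu (Sym2 W) 0 (infEv G) = 0 := by
    refine measure_mono_null (t := ⋃ e, {ω : Cfg (Sym2 W) | ω e = true}) ?_ (measure_iUnion_null h1)
    rintro ω ⟨x, hx⟩
    obtain ⟨y, hy, hne⟩ := hx.exists_notMem_finset {x}
    simp only [Finset.mem_singleton] at hne
    rw [Set.mem_ofPred_eq, reachable_iff_rtg] at hy
    rcases Relation.ReflTransGen.cases_head hy with h | ⟨z, hz, _⟩
    · exact absurd h.symm hne
    · exact Set.mem_iUnion.2 ⟨s(x, z), hz.2⟩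
  rw [Pr, Measure.real, h2]; rfl

theorem Pr_inf_mono_embed {W W' : Type*} [Countable W] [Countable W'] {G' : SimpleGraph W'}
    {G : SimpleGraph W} (f : W' → W) (hf : Function.Injective f)
    (hfG : ∀ x y, G'.Adj x y → G.Adj (f x) (f y)) (p : I) :
    Pr p (infEv G') ≤ Pr p (infEv G) := by
  rw [← Pr_pull_graph (p := p) (R' := Set.univ) f hf.injOn (fun _ _ _ => Set.mem_univ _)
    (measurableSet_infEv G') (infEv_dep G')]
  refine Pr_mono ?_
  rintro ω ⟨x, hx⟩
  refine ⟨f x, ?_⟩
  refine (hx.image hf.injOn).mono ?_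
  rintro _ ⟨y, hy, rfl⟩
  exact reach_map f hfG hy

/-- The set of percolating parameters. -/
def percSet {V : Type*} (G : SimpleGraph V) : Set ℝ :=
  {x : ℝ | ∃ h : x ∈ I, 0 < setBernoulli G.edgeSet ⟨x, h⟩ {s | HasInfiniteCluster s}}

theorem mem_percSet {V : Type*} [Countable V] (G : SimpleGraph V) (x : ℝ) :
    x ∈ percSet G ↔ ∃ h : x ∈ I, 0 < Pr ⟨x, h⟩ (infEv G) := by
  simp only [percSet, Set.mem_ofPred_eq, setBernoulli_inf, ENNReal.ofReal_pos]

/-- Comparison of critical parameters. -/
theorem pc_eq_of {V V' : Type*} [Countable V] [Countable V'] (G : SimpleGraph V)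
    (G' : SimpleGraph V') (h1 : (percSet G').Nonempty)
    (hle : ∀ p : I, Pr p (infEv G') ≤ Pr p (infEv G))
    (hlt : ∀ p p' : I, p < p' → 0 < Pr p (infEv G) → 0 < Pr p' (infEv G')) :
    pc G = pc G' := by
  have hsub : percSet G' ⊆ percSet G := by
    intro x hx
    rw [mem_percSet] at hx ⊢
    obtain ⟨h, hx⟩ := hx
    exact ⟨h, lt_of_lt_of_le hx (hle _)⟩
  have hb' : BddBelow (percSet G') := ⟨0, fun x hx => hx.1.1⟩
  have hb'' : BddBelow (percSet G) := ⟨0, fun x hx => hx.1.1⟩
  change sInf (percSet G) = sInf (percSet G')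
  refine le_antisymm (csInf_le_csInf hb'' h1 hsub) ?_
  refine le_csInf (h1.mono hsub) fun x hx => ?_
  by_contra hc
  rw [not_le] at hc
  rw [mem_percSet] at hx
  obtain ⟨hxI, hx⟩ := hx
  -- pick a parameter strictly between
  have hle1 : sInf (percSet G') ≤ 1 := by
    obtain ⟨y, hy⟩ := h1
    exact le_trans (csInf_le hb' hy) hy.1.2
  obtain ⟨y, hxy, hy⟩ := exists_between hc
  have hyI : y ∈ I := ⟨le_trans hxI.1 hxy.le, le_trans hy.le hle1⟩
  have := hlt ⟨x, hxI⟩ ⟨y, hyI⟩ hxy hx
  have hmem : y ∈ percSet G' := (mem_percSet G' y).2 ⟨hyI, this⟩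
  exact absurd (csInf_le hb' hmem) (not_le.2 hy)

end F

end Pool.Agent.Helper37.Canopy
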