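import Pool.Agent.Helper37.Canopy.Final0

/-! Module F, second part: parameter 1 percolates, embedding of `G □ ℕ` in `G □ ℤ`. -/

namespace Pool.Agent.Helper37.Canopy

open MeasureTheory ProbabilityTheory unitInterval SimpleGraph

section F

theorem percSet_half_nonempty {V : Type*} [Countable V] [Nonempty V] (G : SimpleGraph V) :
    (percSet (G □ hasse ℕ)).Nonempty := by
  refine ⟨1, ?_⟩
  rw [mem_percSet]
  refine ⟨⟨zero_le_one, le_rfl⟩, ?_⟩
  obtain ⟨v⟩ := ‹Nonempty V›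
  have h0 : mu (Sym2 (V × ℕ)) ⟨1, ⟨zero_le_one, le_rfl⟩⟩ (infEv (G □ hasse ℕ))ᶜ = 0 := by
    refine measure_mono_null (t := ⋃ e, {ω : Cfg (Sym2 (V × ℕ)) | ω e = false}) ?_
      (measure_iUnion_null fun e => ?_)
    · intro ω hω
      by_contra hc
      simp only [Set.mem_iUnion, not_exists, Set.mem_ofPred_eq, Bool.not_eq_false] at hc
      refine hω ⟨(v, 0), ?_⟩
      have h1 : ∀ n : ℕ, (opn (G □ hasse ℕ) ω).Reachable (v, 0) (v, n) := by
        intro n
        induction n with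
        | zero => exact Reachable.refl _
        | succ n ih =>
          refine ih.trans (Adj.reachable ?_)
          refine ⟨?_, hc _⟩
          rw [boxProd_adj]
          right
          refine ⟨?_, rfl⟩
          rw [nadj]; left; rfl
      refine (Set.infinite_range_of_injective (f := fun n : ℕ => (v, n)) ?_).mono ?_
      · intro a b hab; simpa using hab
      · rintro _ ⟨n, rfl⟩; exact h1 n
    · have := mu_closed (p := ⟨1, ⟨zero_le_one, le_rfl⟩⟩) ({e} : Finset (Sym2 (V × ℕ)))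
      simpa using this
  have h1 : 0 < mu (Sym2 (V × ℕ)) ⟨1, ⟨zero_le_one, le_rfl⟩⟩ (infEv (G □ hasse ℕ)) := by
    by_contra hc
    have h2 : mu (Sym2 (V × ℕ)) ⟨1, ⟨zero_le_one, le_rfl⟩⟩ (infEv (G □ hasse ℕ)) = 0 := by
      simpa using hc
    have h3 : mu (Sym2 (V × ℕ)) ⟨1, ⟨zero_le_one, le_rfl⟩⟩ Set.univ = 0 := by
      rw [← Set.union_compl_self (infEv (G □ hasse ℕ))]
      exact measure_union_null h2 h0
    simp at h3
  rw [← ofReal_Pr] at h1
  exact ENNReal.ofReal_pos.1 h1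

theorem Pr_inf_half_le {V : Type*} [Countable V] (G : SimpleGraph V) (p : I) :
    Pr p (infEv (G □ hasse ℕ)) ≤ Pr p (infEv (G □ hasse ℤ)) := by
  refine Pr_inf_mono_embed (fun q : V × ℕ => (q.1, (q.2 : ℤ))) ?_ ?_ p
  · rintro ⟨a, b⟩ ⟨a', b'⟩ h
    simpa using h
  · rintro ⟨a, b⟩ ⟨a', b'⟩ h
    rw [boxProd_adj] at h ⊢
    rcases h with ⟨h1, h2⟩ | ⟨h1, h2⟩
    · exact Or.inl ⟨h1, by simpa using h2⟩
    · refine Or.inr ⟨?_, h2⟩
      rw [nadj] at h1
      rw [zadj]
      simp only at h1 ⊢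
      omega

end F

end Pool.Agent.Helper37.Canopy
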