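import Pool.Agent.Helper37.Canopy.Core

/-! Module M: measure theory for the canopy percolation theorem. -/

namespace Pool.Agent.Helper37.Canopy

open MeasureTheory ProbabilityTheory unitInterval SimpleGraph

section M

variable {E E' : Type*} {p : I}

theorem Dep.mono {S S' : Set E} {A : Set (Cfg E)} (h : Dep S A) (hS : S ⊆ S') : Dep S' A :=
  fun ω ω' hω => h ω ω' fun e he => hω e (hS he)

theorem Dep.iff {S : Set E} {A : Set (Cfg E)} (h : Dep S A) {ω ω' : Cfg E}
    (hω : ∀ e ∈ S, ω e = ω' e) : ω ∈ A ↔ ω' ∈ A :=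
  ⟨h ω ω' hω, h ω' ω fun e he => (hω e he).symm⟩

theorem Dep.compl {S : Set E} {A : Set (Cfg E)} (h : Dep S A) : Dep S Aᶜ := by
  intro ω ω' hω hA hA'
  exact hA ((h.iff hω).2 hA')

theorem Dep.inter {S : Set E} {A B : Set (Cfg E)} (hA : Dep S A) (hB : Dep S B) :
    Dep S (A ∩ B) := fun ω ω' hω h => ⟨hA ω ω' hω h.1, hB ω ω' hω h.2⟩

theorem Dep.union {S : Set E} {A B : Set (Cfg E)} (hA : Dep S A) (hB : Dep S B) :
    Dep S (A ∪ B) := fun ω ω' hω h => h.imp (hA ω ω' hω) (hB ω ω' hω)

theorem Dep.iUnion {ι : Sort*} {S : Set E} {A : ι → Set (Cfg E)} (hA : ∀ i, Dep S (A i)) :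
    Dep S (⋃ i, A i) := by
  intro ω ω' hω h
  rw [Set.mem_iUnion] at h ⊢
  exact h.imp fun i hi => hA i ω ω' hω hi

theorem Dep.iInter {ι : Sort*} {S : Set E} {A : ι → Set (Cfg E)} (hA : ∀ i, Dep S (A i)) :
    Dep S (⋂ i, A i) := by
  intro ω ω' hω h
  rw [Set.mem_iInter] at h ⊢
  exact fun i => hA i ω ω' hω (h i)

theorem measurable_coord (e : E) : Measurable (fun ω : Cfg E => ω e) := measurable_pi_apply e

theorem measurableSet_coord (e : E) (b : Bool) : MeasurableSet {ω : Cfg E | ω e = b} :=
  measurable_coord e (measurableSet_singleton b)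

theorem measurableSet_all (F : Finset E) (b : Bool) :
    MeasurableSet {ω : Cfg E | ∀ e ∈ F, ω e = b} := by
  have : {ω : Cfg E | ∀ e ∈ F, ω e = b} = ⋂ e ∈ F, {ω : Cfg E | ω e = b} := by
    ext ω; simp
  rw [this]
  exact Finset.measurableSet_biInter F fun e _ => measurableSet_coord e b

theorem measurableSet_of_dep {F : Finset E} {A : Set (Cfg E)} (h : Dep (F : Set E) A) :
    MeasurableSet A := by
  classical
  have h1 : A = (fun ω : Cfg E => fun e : F => ω e) ⁻¹' ((fun ω : Cfg E => fun e : F => ω e) '' A) := by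
    ext ω
    constructor
    · intro hω; exact ⟨ω, hω, rfl⟩
    · rintro ⟨ω', hω', h'⟩
      refine h ω' ω (fun e he => ?_) hω'
      exact congrFun h' ⟨e, he⟩
  rw [h1]
  refine (measurable_pi_lambda _ fun e => measurable_pi_apply _) ?_
  exact (Set.toFinite _).measurableSet

theorem measurableSet_of_dep_finite {F : Set E} (hF : F.Finite) {A : Set (Cfg E)} (h : Dep F A) :
    MeasurableSet A := by
  have : Dep ((hF.toFinset : Finset E) : Set E) A := by simpa using h
  exact measurableSet_of_dep this

/-- Two probability measures which agree on the events `all of F closed` are equal. -/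
theorem cfg_ext {ν₁ ν₂ : Measure (Cfg E)} [IsProbabilityMeasure ν₁] [IsProbabilityMeasure ν₂]
    (h : ∀ F : Finset E, ν₁ {ω | ∀ e ∈ F, ω e = false} = ν₂ {ω | ∀ e ∈ F, ω e = false}) :
    ν₁ = ν₂ := by
  classical
  refine ext_of_generate_finite (Set.range fun F : Finset E => {ω : Cfg E | ∀ e ∈ F, ω e = false})
    ?_ ?_ ?_ (by simp)
  · refine le_antisymm ?_ ?_
    · refine iSup_le fun e => ?_
      rw [← measurable_iff_comap_le]
      refine measurable_to_bool ?_
      have h1 : (fun ω : Cfg E => ω e) ⁻¹' {true} = {ω : Cfg E | ∀ e' ∈ ({e} : Finset E), ω e' = false}ᶜ := by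
        ext ω; simp
      have h2 : MeasurableSet[MeasurableSpace.generateFrom
          (Set.range fun F : Finset E => {ω : Cfg E | ∀ e ∈ F, ω e = false})]
          {ω : Cfg E | ∀ e' ∈ ({e} : Finset E), ω e' = false} :=
        MeasurableSpace.measurableSet_generateFrom ⟨{e}, rfl⟩
      rw [show (fun b : Cfg E => b e) ⁻¹' {true} = _ from h1]
      exact h2.compl
    · refine MeasurableSpace.generateFrom_le ?_
      rintro _ ⟨F, rfl⟩
      exact measurableSet_all F false
  · rintro _ ⟨F, rfl⟩ _ ⟨F', rfl⟩ _
    refine ⟨F ∪ F', ?_⟩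
    ext ω
    simp only [Finset.mem_union, Set.mem_ofPred_eq, Set.mem_inter_iff]
    constructor
    · intro h; exact ⟨fun e he => h e (Or.inl he), fun e he => h e (Or.inr he)⟩
    · rintro ⟨h, h'⟩ e (he | he)
      · exact h e he
      · exact h' e he
  · rintro _ ⟨F, rfl⟩
    exact h F

theorem mu_closed (F : Finset E) :
    mu E p {ω : Cfg E | ∀ e ∈ F, ω e = false} = ENNReal.ofReal (1 - (p : ℝ)) ^ F.card := by
  have h1 : {ω : Cfg E | ∀ e ∈ F, ω e = false} = Set.pi (F : Set E) fun _ => {false} := by
    ext ω; simp [Set.mem_pi]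
  rw [h1, mu, Measure.infinitePi_pi _ (fun _ _ => measurableSet_singleton _)]
  rw [Finset.prod_const]
  congr 1
  classical
  rw [bernoulliMeasure_apply_of_notMem_of_mem p (measurableSet_singleton _) (by simp) (by simp)]
  rw [ENNReal.ofReal]
  congr 1
  ext
  simp only [unitInterval.toNNReal, Real.toNNReal, NNReal.coe_mk]
  exact (max_eq_left (by linarith [p.2.2])).symm

theorem mu_open (F : Finset E) :
    mu E p {ω : Cfg E | ∀ e ∈ F, ω e = true} = ENNReal.ofReal (p : ℝ) ^ F.card := by
  have h1 : {ω : Cfg E | ∀ e ∈ F, ω e = true} = Set.pi (F : Set E) fun _ => {true} := by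
    ext ω; simp [Set.mem_pi]
  rw [h1, mu, Measure.infinitePi_pi _ (fun _ _ => measurableSet_singleton _)]
  rw [Finset.prod_const]
  congr 1
  classical
  rw [bernoulliMeasure_apply_of_mem_of_notMem p (measurableSet_singleton _) (by simp) (by simp)]
  rw [ENNReal.ofReal]
  congr 1
  ext
  simp only [unitInterval.toNNReal, Real.toNNReal, NNReal.coe_mk]
  exact (max_eq_left p.2.1).symm

theorem Pr_open (F : Finset E) : Pr p {ω : Cfg E | ∀ e ∈ F, ω e = true} = (p : ℝ) ^ F.card := by
  rw [Pr, Measure.real, mu_open, ENNReal.toReal_pow, ENNReal.toReal_ofReal p.2.1]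

theorem Pr_closed (F : Finset E) :
    Pr p {ω : Cfg E | ∀ e ∈ F, ω e = false} = (1 - (p : ℝ)) ^ F.card := by
  rw [Pr, Measure.real, mu_closed, ENNReal.toReal_pow, ENNReal.toReal_ofReal (by linarith [p.2.2])]

open Classical in
/-- Law of the splicing along an injection. -/
theorem map_pull (j : E' → E) {S' : Set E'} (hj : Set.InjOn j S') :
    Measure.map (fun x : Cfg E × Cfg E' => fun e => if e ∈ S' then x.1 (j e) else x.2 e)
      ((mu E p).prod (mu E' p)) = mu E' p := by
  have hm : Measurable (fun x : Cfg E × Cfg E' => fun e => if e ∈ S' then x.1 (j e) else x.2 e) := by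
    refine measurable_pi_lambda _ fun e => ?_
    by_cases he : e ∈ S'
    · simp only [he, if_true]
      exact (measurable_pi_apply (j e)).comp measurable_fst
    · simp only [he, if_false]
      exact (measurable_pi_apply e).comp measurable_snd
  have : IsProbabilityMeasure (Measure.map (fun x : Cfg E × Cfg E' => fun e =>
      if e ∈ S' then x.1 (j e) else x.2 e) ((mu E p).prod (mu E' p))) :=
    Measure.isProbabilityMeasure_map hm.aemeasurable
  refine cfg_ext fun F => ?_
  rw [Measure.map_apply hm (measurableSet_all F false), mu_closed]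
  have h1 : (fun x : Cfg E × Cfg E' => fun e => if e ∈ S' then x.1 (j e) else x.2 e) ⁻¹'
      {ω : Cfg E' | ∀ e ∈ F, ω e = false}
      = {ω : Cfg E | ∀ e ∈ (F.filter (· ∈ S')).image j, ω e = false} ×ˢ
        {ω : Cfg E' | ∀ e ∈ F.filter (· ∉ S'), ω e = false} := by
    ext ⟨ω, ω'⟩
    simp only [Set.mem_preimage, Set.mem_ofPred_eq, Set.mem_prod, Finset.mem_image,
      Finset.mem_filter]
    constructor
    · intro h
      constructor
      · rintro _ ⟨e, ⟨he, hS⟩, rfl⟩
        have := h e he
        rwa [if_pos hS] at this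
      · rintro e ⟨he, hS⟩
        have := h e he
        rwa [if_neg hS] at this
    · rintro ⟨h, h'⟩ e he
      by_cases hS : e ∈ S'
      · rw [if_pos hS]; exact h _ ⟨e, ⟨he, hS⟩, rfl⟩
      · rw [if_neg hS]; exact h' e ⟨he, hS⟩
  rw [h1, Measure.prod_prod, mu_closed, mu_closed, ← pow_add]
  congr 1
  rw [Finset.card_image_of_injOn (fun x hx y hy hxy => hj (by simp at hx; exact hx.2)
    (by simp at hy; exact hy.2) hxy)]
  exact Finset.card_filter_add_card_filter_not _

theorem map_splice (S : Set E) :
    Measure.map (fun x : Cfg E × Cfg E => splice S x.1 x.2) ((mu E p).prod (mu E p)) = mu E p := by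
  exact map_pull (p := p) (fun e => e) (S' := S) (fun _ _ _ _ h => h)

theorem measurable_splice (S : Set E) :
    Measurable (fun x : Cfg E × Cfg E => splice S x.1 x.2) := by
  classical
  refine measurable_pi_lambda _ fun e => ?_
  by_cases he : e ∈ S
  · simp only [splice, he, if_true]
    exact (measurable_pi_apply e).comp measurable_fst
  · simp only [splice, he, if_false]
    exact (measurable_pi_apply e).comp measurable_snd

theorem measurable_splice_right (S : Set E) (ω : Cfg E) :
    Measurable (fun ω' : Cfg E => splice S ω ω') :=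
  (measurable_splice S).comp measurable_prodMk_left

/-- Fubini for splices. -/
theorem mu_splice (S : Set E) {A : Set (Cfg E)} (hA : MeasurableSet A) :
    mu E p A = ∫⁻ ω, mu E p {ω' | splice S ω ω' ∈ A} ∂(mu E p) := by
  conv_lhs => rw [← map_splice (p := p) S]
  rw [Measure.map_apply (measurable_splice S) hA,
    Measure.prod_apply (measurable_splice S hA)]
  rfl

theorem ofReal_Pr (A : Set (Cfg E)) : ENNReal.ofReal (Pr p A) = mu E p A := by
  rw [Pr, Measure.real, ENNReal.ofReal_toReal (measure_ne_top _ _)]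

theorem Pr_nonneg (A : Set (Cfg E)) : 0 ≤ Pr p A := ENNReal.toReal_nonneg

theorem Pr_le_one (A : Set (Cfg E)) : Pr p A ≤ 1 := by
  have := prob_le_one (μ := mu E p) (s := A)
  rw [Pr, Measure.real]
  exact ENNReal.toReal_le_of_le_ofReal zero_le_one (by simpa using this)

theorem Pr_mono {A B : Set (Cfg E)} (h : A ⊆ B) : Pr p A ≤ Pr p B :=
  measureReal_mono h

theorem Pr_compl {A : Set (Cfg E)} (hA : MeasurableSet A) : Pr p Aᶜ = 1 - Pr p A := by
  rw [Pr, Pr, measureReal_compl hA]; simp

theorem Pr_union_le (A B : Set (Cfg E)) : Pr p (A ∪ B) ≤ Pr p A + Pr p B :=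
  measureReal_union_le A B

theorem sum_Pr_le_of_splice (S : Set E) {A : Set (Cfg E)} (hA : MeasurableSet A) {ι : Type*}
    (U : Finset ι) (B : ι → Set (Cfg E)) (hB : ∀ i ∈ U, MeasurableSet (B i)) {β : ℝ} (hβ : 0 ≤ β)
    (h : ∀ ω, β * ∑ i ∈ U, (B i).indicator (fun _ => (1 : ℝ)) ω ≤ Pr p {ω' | splice S ω ω' ∈ A}) :
    β * ∑ i ∈ U, Pr p (B i) ≤ Pr p A := by
  have h1 : ENNReal.ofReal β * ∑ i ∈ U, mu E p (B i) ≤ mu E p A := by
    rw [mu_splice S hA]
    calc ENNReal.ofReal β * ∑ i ∈ U, mu E p (B i)
        = ∫⁻ ω, ENNReal.ofReal β * ∑ i ∈ U, (B i).indicator (fun _ => (1 : ENNReal)) ω ∂(mu E p) := by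
          rw [lintegral_const_mul _ (Finset.measurable_sum U fun i hi =>
            measurable_const.indicator (hB i hi)),
            lintegral_finsetSum U fun i hi => measurable_const.indicator (hB i hi)]
          congr 1
          refine Finset.sum_congr rfl fun i hi => ?_
          rw [lintegral_indicator (hB i hi)]; simp
      _ ≤ ∫⁻ ω, mu E p {ω' | splice S ω ω' ∈ A} ∂(mu E p) := by
          refine lintegral_mono fun ω => ?_
          rw [← ofReal_Pr]
          refine le_trans (le_of_eq ?_) (ENNReal.ofReal_le_ofReal (h ω))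
          rw [ENNReal.ofReal_mul hβ]
          congr 1
          rw [ENNReal.ofReal_sum_of_nonneg (fun i _ => Set.indicator_nonneg (fun _ _ => zero_le_one) _)]
          refine Finset.sum_congr rfl fun i _ => ?_
          by_cases hω : ω ∈ B i <;> simp [hω]
  have h2 : β * ∑ i ∈ U, Pr p (B i) = (ENNReal.ofReal β * ∑ i ∈ U, mu E p (B i)).toReal := by
    rw [ENNReal.toReal_mul, ENNReal.toReal_ofReal hβ, ENNReal.toReal_sum (fun i _ => measure_ne_top _ _)]
    rfl
  rw [h2, Pr, Measure.real]
  exact ENNReal.toReal_mono (measure_ne_top _ _) h1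

theorem mul_Pr_le_of_splice (S : Set E) {A B : Set (Cfg E)} (hA : MeasurableSet A)
    (hB : MeasurableSet B) {c : ℝ} (h : ∀ ω ∈ B, c ≤ Pr p {ω' | splice S ω ω' ∈ A}) :
    c * Pr p B ≤ Pr p A := by
  rcases le_or_gt 0 c with hc | hc
  · have := sum_Pr_le_of_splice (p := p) S hA (Finset.univ : Finset Unit) (fun _ => B)
      (fun _ _ => hB) hc (fun ω => by
        by_cases hω : ω ∈ B
        · simpa [hω] using h ω hω
        · simp [hω, Pr_nonneg])
    simpa using this
  · exact le_trans (mul_nonpos_of_nonpos_of_nonneg hc.le (Pr_nonneg _)) (Pr_nonneg _)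

theorem Pr_inter {S T : Set E} (hST : Disjoint S T) {A B : Set (Cfg E)} (hA : MeasurableSet A)
    (hB : MeasurableSet B) (dA : Dep S A) (dB : Dep T B) : Pr p (A ∩ B) = Pr p A * Pr p B := by
  classical
  have key : mu E p (A ∩ B) = mu E p A * mu E p B := by
    rw [mu_splice S (hA.inter hB)]
    have h1 : ∀ ω : Cfg E, mu E p {ω' | splice S ω ω' ∈ A ∩ B}
        = A.indicator (fun _ => mu E p B) ω := by
      intro ω
      have e1 : ∀ ω', splice S ω ω' ∈ A ↔ ω ∈ A := fun ω' =>
        dA.iff fun e he => by simp [splice, he]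
      have e2 : ∀ ω', splice S ω ω' ∈ B ↔ ω' ∈ B := fun ω' =>
        dB.iff fun e he => by
          have : e ∉ S := fun h => hST.le_bot ⟨h, he⟩
          simp [splice, this]
      by_cases hω : ω ∈ A
      · rw [Set.indicator_of_mem hω]
        congr 1
        ext ω'
        simp only [Set.mem_ofPred_eq, Set.mem_inter_iff, e1, e2, hω, true_and]
      · rw [Set.indicator_of_notMem hω]
        have : {ω' | splice S ω ω' ∈ A ∩ B} = ∅ := by
          ext ω'
          simp only [Set.mem_ofPred_eq, Set.mem_inter_iff, e1, hω, false_and, Set.mem_empty_iff_false]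
        rw [this]; simp
    simp_rw [h1]
    rw [lintegral_indicator hA]
    simp [mul_comm]
  rw [Pr, Pr, Pr, Measure.real, Measure.real, Measure.real, key, ENNReal.toReal_mul]

theorem Pr_pull (j : E' → E) {S' : Set E'} (hj : Set.InjOn j S') {A' : Set (Cfg E')}
    (hA' : MeasurableSet A') (dA' : Dep S' A') :
    Pr p {ω : Cfg E | (fun e => ω (j e)) ∈ A'} = Pr p A' := by
  classical
  have hm : Measurable (fun x : Cfg E × Cfg E' => fun e => if e ∈ S' then x.1 (j e) else x.2 e) := by
    refine measurable_pi_lambda _ fun e => ?_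
    by_cases he : e ∈ S'
    · simp only [he, if_true]
      exact (measurable_pi_apply (j e)).comp measurable_fst
    · simp only [he, if_false]
      exact (measurable_pi_apply e).comp measurable_snd
  have h1 : mu E' p A' = mu E p {ω : Cfg E | (fun e => ω (j e)) ∈ A'} := by
    conv_lhs => rw [← map_pull (p := p) j hj]
    rw [Measure.map_apply hm hA']
    have h2 : (fun x : Cfg E × Cfg E' => fun e => if e ∈ S' then x.1 (j e) else x.2 e) ⁻¹' A'
        = {ω : Cfg E | (fun e => ω (j e)) ∈ A'} ×ˢ Set.univ := by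
      ext ⟨ω, ω'⟩
      simp only [Set.mem_preimage, Set.mem_prod, Set.mem_ofPred_eq, Set.mem_univ, and_true]
      exact dA'.iff fun e he => by simp [he]
    rw [h2, Measure.prod_prod]
    simp
  rw [Pr, Pr, Measure.real, Measure.real, h1]

theorem le_Pr_biUnion {ι : Type*} (U : Finset ι) (S : ι → Set E) (A : ι → Set (Cfg E))
    (hS : (U : Set ι).PairwiseDisjoint S) (hA : ∀ i ∈ U, MeasurableSet (A i))
    (dA : ∀ i ∈ U, Dep (S i) (A i)) {c : ℝ} (hc : 0 ≤ c) (h : ∀ i ∈ U, c ≤ Pr p (A i)) :
    1 - (1 - c) ^ U.card ≤ Pr p (⋃ i ∈ U, A i) := by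
  classical
  -- complements
  have key : Pr p (⋂ i ∈ U, (A i)ᶜ) ≤ (1 - c) ^ U.card := by
    induction U using Finset.induction_on with
    | empty => simp [Pr_le_one]
    | insert a U ha ih =>
      rw [Finset.card_insert_of_notMem ha]
      have h1 : (⋂ i ∈ insert a U, (A i)ᶜ) = (A a)ᶜ ∩ ⋂ i ∈ U, (A i)ᶜ := by
        simp
      rw [h1, Pr_inter (S := S a) (T := ⋃ i ∈ U, S i)]
      · rw [Pr_compl (hA a (Finset.mem_insert_self _ _)), pow_succ, mul_comm]
        have h2 := h a (Finset.mem_insert_self _ _)
        have h3 := ih (hS.subset (by simp)) (fun i hi => hA i (Finset.mem_insert_of_mem hi))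
          (fun i hi => dA i (Finset.mem_insert_of_mem hi))
          (fun i hi => h i (Finset.mem_insert_of_mem hi))
        refine mul_le_mul h3 (by linarith) (by linarith [Pr_le_one (p := p) (A a)]) ?_
        have : c ≤ 1 := le_trans h2 (Pr_le_one _)
        exact pow_nonneg (by linarith) _
      · rw [Set.disjoint_iUnion₂_right]
        intro i hi
        exact hS (by simp) (by simp [hi]) (by rintro rfl; exact ha hi)
      · exact (hA a (Finset.mem_insert_self _ _)).compl
      · exact Finset.measurableSet_biInter U fun i hi => (hA i (Finset.mem_insert_of_mem hi)).compl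
      · exact (dA a (Finset.mem_insert_self _ _)).compl
      · refine Dep.iInter fun i => Dep.iInter fun hi => ?_
        exact ((dA i (Finset.mem_insert_of_mem hi)).compl).mono
          (Set.subset_biUnion_of_mem (u := fun i => S i) (by exact hi))
  have h1 : (⋃ i ∈ U, A i) = (⋂ i ∈ U, (A i)ᶜ)ᶜ := by
    simp
  rw [h1, Pr_compl (Finset.measurableSet_biInter U fun i hi => (hA i hi).compl)]
  linarith

open Classical in
theorem Pr_split (e : E) {A : Set (Cfg E)} (hA : MeasurableSet A) :
    Pr p A = p * Pr p {ω | Function.update ω e true ∈ A}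
      + (1 - p) * Pr p {ω | Function.update ω e false ∈ A} := by
  have hm : ∀ b : Bool, Measurable (fun ω : Cfg E => Function.update ω e b) := by
    intro b
    refine measurable_pi_lambda _ fun e' => ?_
    by_cases h : e' = e
    · subst h; simp
    · simp only [Function.update_of_ne h]
      exact measurable_pi_apply e'
  have hmA : ∀ b : Bool, MeasurableSet {ω : Cfg E | Function.update ω e b ∈ A} := fun b => hm b hA
  have hd : ∀ b : Bool, Dep {e}ᶜ {ω : Cfg E | Function.update ω e b ∈ A} := by
    intro b ω ω' h hω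
    have : Function.update ω' e b = Function.update ω e b := by
      ext e'
      by_cases h' : e' = e
      · subst h'; simp
      · rw [Function.update_of_ne h', Function.update_of_ne h', h e' (by simpa using h')]
    simp only [Set.mem_ofPred_eq]
    rw [this]
    exact hω
  have hd1 : ∀ b : Bool, Dep {e} {ω : Cfg E | ω e = b} := by
    intro b ω ω' h hω
    simp only [Set.mem_ofPred_eq] at hω ⊢
    rw [← h e rfl]; exact hω
  have hdis : Disjoint ({e} : Set E) {e}ᶜ := disjoint_compl_right
  have h1 : A = ({ω | ω e = true} ∩ {ω | Function.update ω e true ∈ A})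
      ∪ ({ω | ω e = false} ∩ {ω | Function.update ω e false ∈ A}) := by
    ext ω
    simp only [Set.mem_union, Set.mem_inter_iff, Set.mem_ofPred_eq]
    rcases hb : ω e with _ | _
    · have : Function.update ω e false = ω := by rw [← hb]; exact Function.update_eq_self e ω
      simp [this]
    · have : Function.update ω e true = ω := by rw [← hb]; exact Function.update_eq_self e ω
      simp [this]
  have h2 : Disjoint ({ω : Cfg E | ω e = true} ∩ {ω | Function.update ω e true ∈ A})
      ({ω | ω e = false} ∩ {ω | Function.update ω e false ∈ A}) := by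
    rw [Set.disjoint_left]
    rintro ω ⟨h, _⟩ ⟨h', _⟩
    simp only [Set.mem_ofPred_eq] at h h'
    rw [h] at h'; exact absurd h' (by simp)
  conv_lhs => rw [h1]
  have h3 : Pr p (({ω : Cfg E | ω e = true} ∩ {ω | Function.update ω e true ∈ A})
      ∪ ({ω | ω e = false} ∩ {ω | Function.update ω e false ∈ A}))
      = Pr p ({ω : Cfg E | ω e = true} ∩ {ω | Function.update ω e true ∈ A})
        + Pr p ({ω | ω e = false} ∩ {ω | Function.update ω e false ∈ A}) :=
    measureReal_union h2 ((measurableSet_coord e false).inter (hmA false))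
  rw [h3, Pr_inter hdis (measurableSet_coord e true) (hmA true) (hd1 true) (hd true),
    Pr_inter hdis (measurableSet_coord e false) (hmA false) (hd1 false) (hd false)]
  have h4 : Pr p {ω : Cfg E | ω e = true} = p := by
    have := Pr_open (p := p) ({e} : Finset E)
    simpa using this
  have h5 : Pr p {ω : Cfg E | ω e = false} = 1 - p := by
    have := Pr_closed (p := p) ({e} : Finset E)
    simpa using this
  rw [h4, h5]

theorem harris (F : Finset E) {A B : Set (Cfg E)} (dA : Dep (F : Set E) A)
    (dB : Dep (F : Set E) B) (uA : IsUpperSet A) (uB : IsUpperSet B) :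
    Pr p A * Pr p B ≤ Pr p (A ∩ B) := by
  classical
  induction F using Finset.induction_on generalizing A B with
  | empty =>
    -- events depending on nothing
    by_cases hA : A.Nonempty
    · obtain ⟨ω₀, h₀⟩ := hA
      have : A = Set.univ := Set.eq_univ_of_forall fun ω => dA ω₀ ω (by simp) h₀
      subst this
      rw [Set.univ_inter]
      have h1 : Pr p (Set.univ : Set (Cfg E)) ≤ 1 := Pr_le_one _
      nlinarith [Pr_nonneg (p := p) B]
    · rw [Set.not_nonempty_iff_eq_empty] at hA
      subst hA
      simp [Pr]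
  | insert e F he ih =>
    have mA : MeasurableSet A := measurableSet_of_dep dA
    have mB : MeasurableSet B := measurableSet_of_dep dB
    have hup : ∀ {A : Set (Cfg E)} (b : Bool), IsUpperSet A →
        IsUpperSet {ω : Cfg E | Function.update ω e b ∈ A} := by
      intro A b uA ω ω' h hω
      refine uA ?_ hω
      intro e'
      by_cases h' : e' = e
      · subst h'; simp
      · rw [Function.update_of_ne h', Function.update_of_ne h']; exact h e'
    have hdep : ∀ {A : Set (Cfg E)} (b : Bool), Dep ((insert e F : Finset E) : Set E) A →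
        Dep (F : Set E) {ω : Cfg E | Function.update ω e b ∈ A} := by
      intro A b dA ω ω' h hω
      refine dA _ _ ?_ hω
      intro e' he'
      by_cases h' : e' = e
      · subst h'; simp
      · rw [Function.update_of_ne h', Function.update_of_ne h']
        refine h e' ?_
        simpa [h'] using he'
    have i1 := ih (hdep true dA) (hdep true dB) (hup true uA) (hup true uB)
    have i0 := ih (hdep false dA) (hdep false dB) (hup false uA) (hup false uB)
    have s1 := Pr_split (p := p) e mA
    have s2 := Pr_split (p := p) e mB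
    have s3 := Pr_split (p := p) e (mA.inter mB)
    have hle : ∀ {A : Set (Cfg E)}, IsUpperSet A →
        Pr p {ω : Cfg E | Function.update ω e false ∈ A}
          ≤ Pr p {ω : Cfg E | Function.update ω e true ∈ A} := by
      intro A uA
      refine Pr_mono fun ω hω => ?_
      refine uA ?_ hω
      intro e'
      by_cases h' : e' = e
      · subst h'; simp
      · rw [Function.update_of_ne h', Function.update_of_ne h']
    have lA := hle uA
    have lB := hle uB
    set a1 := Pr p {ω : Cfg E | Function.update ω e true ∈ A}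
    set a0 := Pr p {ω : Cfg E | Function.update ω e false ∈ A}
    set b1 := Pr p {ω : Cfg E | Function.update ω e true ∈ B}
    set b0 := Pr p {ω : Cfg E | Function.update ω e false ∈ B}
    have e1 : {ω : Cfg E | Function.update ω e true ∈ A ∩ B}
        = {ω : Cfg E | Function.update ω e true ∈ A} ∩ {ω : Cfg E | Function.update ω e true ∈ B} := rfl
    have e0 : {ω : Cfg E | Function.update ω e false ∈ A ∩ B}
        = {ω : Cfg E | Function.update ω e false ∈ A} ∩ {ω : Cfg E | Function.update ω e false ∈ B} := rfl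
    rw [s1, s2, s3, e1, e0]
    have hp0 : 0 ≤ (p : ℝ) := p.2.1
    have hp1 : (p : ℝ) ≤ 1 := p.2.2
    have hpos : 0 ≤ (p : ℝ) * (1 - p) * ((a1 - a0) * (b1 - b0)) :=
      mul_nonneg (mul_nonneg hp0 (by linarith)) (mul_nonneg (by linarith) (by linarith))
    have j1 := mul_le_mul_of_nonneg_left i1 hp0
    have j0 := mul_le_mul_of_nonneg_left i0 (show 0 ≤ 1 - (p : ℝ) by linarith)
    nlinarith [hpos, j1, j0]

theorem measurable_or : Measurable (fun x : Cfg E × Cfg E => fun e => x.1 e || x.2 e) := by
  refine measurable_pi_lambda _ fun e => ?_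
  have h : Measurable (fun y : Bool × Bool => y.1 || y.2) := measurable_of_finite _
  have h1 : Measurable (fun x : Cfg E × Cfg E => (x.1 e, x.2 e)) :=
    Measurable.prodMk ((measurable_pi_apply e).comp measurable_fst)
      ((measurable_pi_apply e).comp measurable_snd)
  exact h.comp h1

theorem map_or {p δ p' : I} (h : 1 - (p' : ℝ) = (1 - p) * (1 - δ)) :
    Measure.map (fun x : Cfg E × Cfg E => fun e => x.1 e || x.2 e) ((mu E p).prod (mu E δ))
      = mu E p' := by
  have hm := measurable_or (E := E)
  have : IsProbabilityMeasure (Measure.map (fun x : Cfg E × Cfg E => fun e => x.1 e || x.2 e)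
      ((mu E p).prod (mu E δ))) := Measure.isProbabilityMeasure_map hm.aemeasurable
  refine cfg_ext fun F => ?_
  rw [Measure.map_apply hm (measurableSet_all F false), mu_closed]
  have h1 : (fun x : Cfg E × Cfg E => fun e => x.1 e || x.2 e) ⁻¹'
      {ω : Cfg E | ∀ e ∈ F, ω e = false}
      = {ω : Cfg E | ∀ e ∈ F, ω e = false} ×ˢ {ω : Cfg E | ∀ e ∈ F, ω e = false} := by
    ext ⟨ω, ω'⟩
    simp only [Set.mem_preimage, Set.mem_ofPred_eq, Set.mem_prod, Bool.or_eq_false_iff]
    exact ⟨fun h => ⟨fun e he => (h e he).1, fun e he => (h e he).2⟩,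
      fun h e he => ⟨h.1 e he, h.2 e he⟩⟩
  rw [h1, Measure.prod_prod, mu_closed, mu_closed, ← mul_pow,
    ← ENNReal.ofReal_mul (by linarith [p.2.2]), h]

theorem Pr_mono_p {p p' : I} (h : p ≤ p') {A : Set (Cfg E)} (hA : MeasurableSet A)
    (uA : IsUpperSet A) : Pr p A ≤ Pr p' A := by
  obtain ⟨δ, hδ⟩ : ∃ δ : I, 1 - (p' : ℝ) = (1 - p) * (1 - δ) := by
    have hpp : (p : ℝ) ≤ p' := h
    rcases eq_or_lt_of_le p.2.2 with hp | hp
    · refine ⟨0, ?_⟩
      have : (p' : ℝ) = 1 := le_antisymm p'.2.2 (by rw [← hp]; exact hpp)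
      rw [this, hp]; simp
    · have hpos : 0 < 1 - (p : ℝ) := by linarith
      refine ⟨⟨((p' : ℝ) - p) / (1 - p), div_nonneg (by linarith) hpos.le, ?_⟩, ?_⟩
      · rw [div_le_one hpos]; linarith [p'.2.2]
      · simp only
        field_simp
        ring
  have hm := measurable_or (E := E)
  have h1 : mu E p A ≤ mu E p' A := by
    rw [← map_or (E := E) hδ, Measure.map_apply hm hA]
    calc mu E p A = ((mu E p).prod (mu E δ)) (A ×ˢ Set.univ) := by
          rw [Measure.prod_prod]; simp
      _ ≤ _ := by
          refine measure_mono ?_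
          rintro ⟨ω, ω'⟩ ⟨hω, _⟩
          refine uA ?_ hω
          intro e
          cases h1 : ω e <;> simp [h1]
  rw [Pr, Pr, Measure.real, Measure.real]
  exact ENNReal.toReal_mono (measure_ne_top _ _) h1

end M

end Pool.Agent.Helper37.Canopy
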