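import Pool.Agent.Helper99.Canopy.Round
import Pool.Agent.Helper52.Canopy.L2
import Pool.Agent.Helper92.Canopy.LadderNum

/-! Module L, assembly. -/

namespace Pool.Agent.Helper37.Canopy

open MeasureTheory ProbabilityTheory unitInterval SimpleGraph

section L

variable {D : Type} [AddCommGroup D] [Fintype D] [DecidableEq D] [Nontrivial D]

theorem RootConn.mono_L {p : I} {K M L L' : ℕ} {c : ℝ} (h : RootConn D p K M L c)
    (hL : L' ≤ L) : RootConn D p K M L' c := fun m hm => h m (le_trans hm hL)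

theorem ladder {p : I} (hp : 0 < p) {c : ℝ} (hc : 0 < c) {k K₀ M₀ H : ℕ}
    (h : ∀ i : ℕ, RootConn D p (K₀ + k * i) (M₀ + H * i) (2 ^ i) c) :
    0 < Pr p (infEv (LG D)) := by
  have hc1 : c ≤ 1 := le_trans (h 0 0 (Nat.zero_le _)) (Pr_le_one _)
  obtain ⟨s, κ, r, hh, T, α, ε, h1, h2, h3, h4, h5, h6, h7, h8, h8', h9, h10, h11, h12⟩ :=
    ladder_numeric (show (0 : ℝ) < p from hp) p.2.2 hc hc1 k K₀ M₀ H
  refine chain_rounds hp κ r hh T α ε h4 h5 h6 ?_ h7 h8 h8' ?_ h10 h11 h12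
  · exact le_trans (Int.natCast_nonneg _) (h2 0)
  · intro n X hX hX'
    have := round_bound (r := r n) (T' := T (n + 1)) hc (h1 n) ((h (s n)).mono_L (h3 n)) X
      hX hX' (h2 n)
    linarith [h9 n]

end L

end Pool.Agent.Helper37.Canopy
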