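import Pool.Agent.Helper37.Canopy.Final1
import Pool.Agent.Helper37.Canopy.Ladder
import Pool.Agent.Helper68.Canopy.Recursion
import Pool.Agent.Helper94.Canopy.LeafConn
import Pool.Agent.Helper87.Canopy.CanopyData
import Pool.Agent.Helper87.Canopy.Arm
import Pool.Agent.Helper92.Canopy.Embed

/-! The main theorem: the critical parameters of `CT_d × ℤ` and `CT_d × ℕ` agree. -/

namespace Pool.Agent.Helper37.Canopy

open MeasureTheory ProbabilityTheory unitInterval SimpleGraph

theorem percolates_half {d : ℕ} (hd : 3 ≤ d) {V : Type*} {G : SimpleGraph V} {lev : V → ℕ}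
    (hG : IsCanopyTree d G lev) {p p' : I} (hp : p < p')
    (h : 0 < Pr p (infEv (G □ hasse ℤ))) : 0 < Pr p' (infEv (G □ hasse ℕ)) := by
  have := countable_of_canopy (by omega) hG
  have : Fact (1 < d - 1) := ⟨by omega⟩
  have : NeZero (d - 1) := ⟨by omega⟩
  have hp1 : p < 1 := lt_of_lt_of_le hp le_top
  have hp0 : 0 < p' := lt_of_le_of_lt bot_le hp
  have hpp : 0 < p := by
    rcases eq_or_lt_of_le (show (0 : I) ≤ p from p.2.1) with h0 | h0
    · subst h0
      rw [Pr_inf_zero] at h
      exact absurd h (lt_irrefl _)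
    · exact h0
  obtain ⟨⟨v, x⟩, hv⟩ := exists_infAt h
  obtain ⟨C, j, rfl⟩ := exists_cdata hd hG v
  have h0 := infAt_ray C hpp j x hv
  have hA := armHyp_of_canopy C hp1 h0 le_rfl
  have hA' := hA.mono_p hp.le
  have hL := leafConn_of_arm hp (half_pos h0) hA
  obtain ⟨k, K₀, M₀, H, hR⟩ := rootConn_all (half_pos h0) hA' hL
  have := ladder hp0 (by positivity) hR
  exact lt_of_lt_of_le this (ladder_embed C p')

theorem pc_canopy (d : ℕ) (hd : 3 ≤ d) {V : Type*} (G : SimpleGraph V) (lev : V → ℕ)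
    (hG : IsCanopyTree d G lev) : pc (G □ hasse ℤ) = pc (G □ hasse ℕ) := by
  have := countable_of_canopy (by omega) hG
  have : Nonempty V := ⟨(hG.infinite_level 0).nonempty.some⟩
  exact pc_eq_of _ _ (percSet_half_nonempty G) (Pr_inf_half_le G)
    (fun p p' hp h => percolates_half hd hG hp h)

end Pool.Agent.Helper37.Canopy
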